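import Pool.Agent.W611.PS.Data

set_option autoImplicit false

namespace Pool.Agent.W611.PS

open Pool.Agent.Results.MP_17ab9e_co.NonNormalPSMinus

lemma chunk_28 : allB srch 1 28 (Nat.mod (Nat.shiftRight oM 28) (Nat.pow 2 2)) = true := by
  decide +kernel

lemma chunk_36 : allB srch 2 36 (Nat.mod (Nat.shiftRight oM 36) (Nat.pow 2 4)) = true := by
  decide +kernel

lemma chunk_72 : allB srch 3 72 (Nat.mod (Nat.shiftRight oM 72) (Nat.pow 2 8)) = true := by
  decide +kernel

lemma chunk_160 : allB srch 5 160 (Nat.mod (Nat.shiftRight oM 160) (Nat.pow 2 32)) = true := by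
  decide +kernel

lemma chunk_522 : allB srch 1 522 (Nat.mod (Nat.shiftRight oM 522) (Nat.pow 2 2)) = true := by
  decide +kernel

lemma chunk_568 : allB srch 3 568 (Nat.mod (Nat.shiftRight oM 568) (Nat.pow 2 8)) = true := by
  decide +kernel

lemma chunk_672 : allB srch 5 672 (Nat.mod (Nat.shiftRight oM 672) (Nat.pow 2 32)) = true := by
  decide +kernel

end Pool.Agent.W611.PS
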