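import Pool.Agent.W611.PS.Data

set_option autoImplicit false

namespace Pool.Agent.W611.PS

open Pool.Agent.Results.MP_17ab9e_co.NonNormalPSMinus

lemma chunk_24 : allB srch 1 24 (Nat.mod (Nat.shiftRight oM 24) (Nat.pow 2 2)) = true := by
  decide +kernel

lemma chunk_515 : allB srch 0 515 (Nat.mod (Nat.shiftRight oM 515) (Nat.pow 2 1)) = true := by
  decide +kernel

lemma chunk_544 : allB srch 1 544 (Nat.mod (Nat.shiftRight oM 544) (Nat.pow 2 2)) = true := by
  decide +kernel

lemma chunk_776 : allB srch 2 776 (Nat.mod (Nat.shiftRight oM 776) (Nat.pow 2 4)) = true := by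
  decide +kernel

lemma chunk_780 : allB srch 2 780 (Nat.mod (Nat.shiftRight oM 780) (Nat.pow 2 4)) = true := by
  decide +kernel

lemma chunk_832 : allB srch 5 832 (Nat.mod (Nat.shiftRight oM 832) (Nat.pow 2 32)) = true := by
  decide +kernel

end Pool.Agent.W611.PS
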