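import Pool.Agent.W611.PS.Data

set_option autoImplicit false

namespace Pool.Agent.W611.PS

open Pool.Agent.Results.MP_17ab9e_co.NonNormalPSMinus

lemma chunk_30 : allB srch 1 30 (Nat.mod (Nat.shiftRight oM 30) (Nat.pow 2 2)) = true := by
  decide +kernel

lemma chunk_40 : allB srch 3 40 (Nat.mod (Nat.shiftRight oM 40) (Nat.pow 2 8)) = true := by
  decide +kernel

lemma chunk_272 : allB srch 4 272 (Nat.mod (Nat.shiftRight oM 272) (Nat.pow 2 16)) = true := by
  decide +kernel

lemma chunk_384 : allB srch 7 384 (Nat.mod (Nat.shiftRight oM 384) (Nat.pow 2 128)) = true := by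
  decide +kernel

lemma chunk_532 : allB srch 1 532 (Nat.mod (Nat.shiftRight oM 532) (Nat.pow 2 2)) = true := by
  decide +kernel

lemma chunk_608 : allB srch 5 608 (Nat.mod (Nat.shiftRight oM 608) (Nat.pow 2 32)) = true := by
  decide +kernel

lemma chunk_864 : allB srch 5 864 (Nat.mod (Nat.shiftRight oM 864) (Nat.pow 2 32)) = true := by
  decide +kernel

end Pool.Agent.W611.PS
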