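import Pool.Agent.W611.PS.Data

set_option autoImplicit false

namespace Pool.Agent.W611.PS

open Pool.Agent.Results.MP_17ab9e_co.NonNormalPSMinus

lemma chunk_22 : allB srch 1 22 (Nat.mod (Nat.shiftRight oM 22) (Nat.pow 2 2)) = true := by
  decide +kernel

lemma chunk_144 : allB srch 4 144 (Nat.mod (Nat.shiftRight oM 144) (Nat.pow 2 16)) = true := by
  decide +kernel

lemma chunk_516 : allB srch 2 516 (Nat.mod (Nat.shiftRight oM 516) (Nat.pow 2 4)) = true := by
  decide +kernel

lemma chunk_536 : allB srch 2 536 (Nat.mod (Nat.shiftRight oM 536) (Nat.pow 2 4)) = true := by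
  decide +kernel

lemma chunk_560 : allB srch 2 560 (Nat.mod (Nat.shiftRight oM 560) (Nat.pow 2 4)) = true := by
  decide +kernel

lemma chunk_772 : allB srch 2 772 (Nat.mod (Nat.shiftRight oM 772) (Nat.pow 2 4)) = true := by
  decide +kernel

lemma chunk_784 : allB srch 3 784 (Nat.mod (Nat.shiftRight oM 784) (Nat.pow 2 8)) = true := by
  decide +kernel

end Pool.Agent.W611.PS
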