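import Pool.Agent.W611.PS.Data

set_option autoImplicit false

namespace Pool.Agent.W611.PS

open Pool.Agent.Results.MP_17ab9e_co.NonNormalPSMinus

lemma chunk_16 : allB srch 1 16 (Nat.mod (Nat.shiftRight oM 16) (Nat.pow 2 2)) = true := by
  decide +kernel

lemma chunk_56 : allB srch 3 56 (Nat.mod (Nat.shiftRight oM 56) (Nat.pow 2 8)) = true := by
  decide +kernel

lemma chunk_80 : allB srch 4 80 (Nat.mod (Nat.shiftRight oM 80) (Nat.pow 2 16)) = true := by
  decide +kernel

lemma chunk_524 : allB srch 1 524 (Nat.mod (Nat.shiftRight oM 524) (Nat.pow 2 2)) = true := by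
  decide +kernel

lemma chunk_540 : allB srch 2 540 (Nat.mod (Nat.shiftRight oM 540) (Nat.pow 2 4)) = true := by
  decide +kernel

lemma chunk_640 : allB srch 5 640 (Nat.mod (Nat.shiftRight oM 640) (Nat.pow 2 32)) = true := by
  decide +kernel

end Pool.Agent.W611.PS
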