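import Pool.Agent.W611.PS.Data

set_option autoImplicit false

namespace Pool.Agent.W611.PS

open Pool.Agent.Results.MP_17ab9e_co.NonNormalPSMinus

lemma chunk_32 : allB srch 2 32 (Nat.mod (Nat.shiftRight oM 32) (Nat.pow 2 4)) = true := by
  decide +kernel

lemma chunk_48 : allB srch 3 48 (Nat.mod (Nat.shiftRight oM 48) (Nat.pow 2 8)) = true := by
  decide +kernel

lemma chunk_128 : allB srch 4 128 (Nat.mod (Nat.shiftRight oM 128) (Nat.pow 2 16)) = true := by
  decide +kernel

lemma chunk_514 : allB srch 0 514 (Nat.mod (Nat.shiftRight oM 514) (Nat.pow 2 1)) = true := by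
  decide +kernel

lemma chunk_576 : allB srch 4 576 (Nat.mod (Nat.shiftRight oM 576) (Nat.pow 2 16)) = true := by
  decide +kernel

lemma chunk_704 : allB srch 6 704 (Nat.mod (Nat.shiftRight oM 704) (Nat.pow 2 64)) = true := by
  decide +kernel

lemma chunk_816 : allB srch 4 816 (Nat.mod (Nat.shiftRight oM 816) (Nat.pow 2 16)) = true := by
  decide +kernel

end Pool.Agent.W611.PS
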