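import Pool.Agent.W611.PS.Data

set_option autoImplicit false

namespace Pool.Agent.W611.PS

open Pool.Agent.Results.MP_17ab9e_co.NonNormalPSMinus

lemma chunk_0 : allB srch 4 0 (Nat.mod (Nat.shiftRight oM 0) (Nat.pow 2 16)) = true := by
  decide +kernel

lemma chunk_96 : allB srch 5 96 (Nat.mod (Nat.shiftRight oM 96) (Nat.pow 2 32)) = true := by
  decide +kernel

lemma chunk_288 : allB srch 5 288 (Nat.mod (Nat.shiftRight oM 288) (Nat.pow 2 32)) = true := by
  decide +kernel

lemma chunk_526 : allB srch 1 526 (Nat.mod (Nat.shiftRight oM 526) (Nat.pow 2 2)) = true := by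
  decide +kernel

lemma chunk_528 : allB srch 2 528 (Nat.mod (Nat.shiftRight oM 528) (Nat.pow 2 4)) = true := by
  decide +kernel

lemma chunk_548 : allB srch 2 548 (Nat.mod (Nat.shiftRight oM 548) (Nat.pow 2 4)) = true := by
  decide +kernel

lemma chunk_800 : allB srch 4 800 (Nat.mod (Nat.shiftRight oM 800) (Nat.pow 2 16)) = true := by
  decide +kernel

end Pool.Agent.W611.PS
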