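import Pool.Agent.W611.PS.Data

set_option autoImplicit false

namespace Pool.Agent.W611.PS

open Pool.Agent.Results.MP_17ab9e_co.NonNormalPSMinus

lemma chunk_20 : allB srch 1 20 (Nat.mod (Nat.shiftRight oM 20) (Nat.pow 2 2)) = true := by
  decide +kernel

lemma chunk_513 : allB srch 0 513 (Nat.mod (Nat.shiftRight oM 513) (Nat.pow 2 1)) = true := by
  decide +kernel

lemma chunk_520 : allB srch 1 520 (Nat.mod (Nat.shiftRight oM 520) (Nat.pow 2 2)) = true := by
  decide +kernel

lemma chunk_534 : allB srch 1 534 (Nat.mod (Nat.shiftRight oM 534) (Nat.pow 2 2)) = true := by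
  decide +kernel

lemma chunk_552 : allB srch 2 552 (Nat.mod (Nat.shiftRight oM 552) (Nat.pow 2 4)) = true := by
  decide +kernel

lemma chunk_768 : allB srch 2 768 (Nat.mod (Nat.shiftRight oM 768) (Nat.pow 2 4)) = true := by
  decide +kernel

end Pool.Agent.W611.PS
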