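import Pool.Agent.W611.PS.Data

set_option autoImplicit false

namespace Pool.Agent.W611.PS

open Pool.Agent.Results.MP_17ab9e_co.NonNormalPSMinus

lemma chunk_18 : allB srch 1 18 (Nat.mod (Nat.shiftRight oM 18) (Nat.pow 2 2)) = true := by
  decide +kernel

lemma chunk_26 : allB srch 1 26 (Nat.mod (Nat.shiftRight oM 26) (Nat.pow 2 2)) = true := by
  decide +kernel

lemma chunk_512 : allB srch 0 512 (Nat.mod (Nat.shiftRight oM 512) (Nat.pow 2 1)) = true := by
  decide +kernel

lemma chunk_564 : allB srch 2 564 (Nat.mod (Nat.shiftRight oM 564) (Nat.pow 2 4)) = true := by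
  decide +kernel

lemma chunk_592 : allB srch 4 592 (Nat.mod (Nat.shiftRight oM 592) (Nat.pow 2 16)) = true := by
  decide +kernel

lemma chunk_896 : allB srch 7 896 (Nat.mod (Nat.shiftRight oM 896) (Nat.pow 2 128)) = true := by
  decide +kernel

end Pool.Agent.W611.PS
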