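import Pool.Agent.W611.PS.CkA
import Pool.Agent.W611.PS.CkB
import Pool.Agent.W611.PS.CkC
import Pool.Agent.W611.PS.CkD
import Pool.Agent.W611.PS.CkE
import Pool.Agent.W611.PS.CkF
import Pool.Agent.W611.PS.CkG
import Pool.Agent.W611.PS.CkH
import Pool.Agent.W611.PS.CkI
import Pool.Agent.W611.PS.CkJ

set_option autoImplicit false

namespace Pool.Agent.W611.PS

open Pool.Agent.Results.MP_17ab9e_co.NonNormalPSMinus

lemma srch_of_chunk {lev base : ℕ}
    (h : allB srch lev base (Nat.mod (Nat.shiftRight oM base) (Nat.pow 2 (2 ^ lev))) = true)
    {c : ℕ} (h1 : base ≤ c) (h2 : c < base + 2 ^ lev) (hc : oM.testBit c = true) :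
    srch c = true := by
  obtain ⟨x, rfl⟩ := Nat.exists_eq_add_of_le h1
  have hx : x < 2 ^ lev := by omega
  apply allB_spec _ _ _ _ h x hx
  change ((oM >>> base) % 2 ^ (2 ^ lev)).testBit x = true
  rw [Nat.testBit_mod_two_pow, Nat.testBit_shiftRight, hc]
  simp [hx]

theorem srch_true {c : ℕ} (hlt : c < 1024) (hc : oM.testBit c = true) : srch c = true := by
  rcases lt_or_ge c 16 with h | h
  · exact srch_of_chunk (lev := 4) (base := 0) chunk_0 (by omega) (by norm_num; omega) hc
  rcases lt_or_ge c 18 with h | h
  · exact srch_of_chunk (lev := 1) (base := 16) chunk_16 (by omega) (by norm_num; omega) hc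
  rcases lt_or_ge c 20 with h | h
  · exact srch_of_chunk (lev := 1) (base := 18) chunk_18 (by omega) (by norm_num; omega) hc
  rcases lt_or_ge c 22 with h | h
  · exact srch_of_chunk (lev := 1) (base := 20) chunk_20 (by omega) (by norm_num; omega) hc
  rcases lt_or_ge c 24 with h | h
  · exact srch_of_chunk (lev := 1) (base := 22) chunk_22 (by omega) (by norm_num; omega) hc
  rcases lt_or_ge c 26 with h | h
  · exact srch_of_chunk (lev := 1) (base := 24) chunk_24 (by omega) (by norm_num; omega) hc
  rcases lt_or_ge c 28 with h | h
  · exact srch_of_chunk (lev := 1) (base := 26) chunk_26 (by omega) (by norm_num; omega) hc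
  rcases lt_or_ge c 30 with h | h
  · exact srch_of_chunk (lev := 1) (base := 28) chunk_28 (by omega) (by norm_num; omega) hc
  rcases lt_or_ge c 32 with h | h
  · exact srch_of_chunk (lev := 1) (base := 30) chunk_30 (by omega) (by norm_num; omega) hc
  rcases lt_or_ge c 36 with h | h
  · exact srch_of_chunk (lev := 2) (base := 32) chunk_32 (by omega) (by norm_num; omega) hc
  rcases lt_or_ge c 40 with h | h
  · exact srch_of_chunk (lev := 2) (base := 36) chunk_36 (by omega) (by norm_num; omega) hc
  rcases lt_or_ge c 48 with h | h
  · exact srch_of_chunk (lev := 3) (base := 40) chunk_40 (by omega) (by norm_num; omega) hc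
  rcases lt_or_ge c 56 with h | h
  · exact srch_of_chunk (lev := 3) (base := 48) chunk_48 (by omega) (by norm_num; omega) hc
  rcases lt_or_ge c 64 with h | h
  · exact srch_of_chunk (lev := 3) (base := 56) chunk_56 (by omega) (by norm_num; omega) hc
  rcases lt_or_ge c 72 with h | h
  · exact srch_of_chunk (lev := 3) (base := 64) chunk_64 (by omega) (by norm_num; omega) hc
  rcases lt_or_ge c 80 with h | h
  · exact srch_of_chunk (lev := 3) (base := 72) chunk_72 (by omega) (by norm_num; omega) hc
  rcases lt_or_ge c 96 with h | h
  · exact srch_of_chunk (lev := 4) (base := 80) chunk_80 (by omega) (by norm_num; omega) hc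
  rcases lt_or_ge c 128 with h | h
  · exact srch_of_chunk (lev := 5) (base := 96) chunk_96 (by omega) (by norm_num; omega) hc
  rcases lt_or_ge c 144 with h | h
  · exact srch_of_chunk (lev := 4) (base := 128) chunk_128 (by omega) (by norm_num; omega) hc
  rcases lt_or_ge c 160 with h | h
  · exact srch_of_chunk (lev := 4) (base := 144) chunk_144 (by omega) (by norm_num; omega) hc
  rcases lt_or_ge c 192 with h | h
  · exact srch_of_chunk (lev := 5) (base := 160) chunk_160 (by omega) (by norm_num; omega) hc
  rcases lt_or_ge c 256 with h | h
  · exact srch_of_chunk (lev := 6) (base := 192) chunk_192 (by omega) (by norm_num; omega) hc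
  rcases lt_or_ge c 272 with h | h
  · exact srch_of_chunk (lev := 4) (base := 256) chunk_256 (by omega) (by norm_num; omega) hc
  rcases lt_or_ge c 288 with h | h
  · exact srch_of_chunk (lev := 4) (base := 272) chunk_272 (by omega) (by norm_num; omega) hc
  rcases lt_or_ge c 320 with h | h
  · exact srch_of_chunk (lev := 5) (base := 288) chunk_288 (by omega) (by norm_num; omega) hc
  rcases lt_or_ge c 384 with h | h
  · exact srch_of_chunk (lev := 6) (base := 320) chunk_320 (by omega) (by norm_num; omega) hc
  rcases lt_or_ge c 512 with h | h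
  · exact srch_of_chunk (lev := 7) (base := 384) chunk_384 (by omega) (by norm_num; omega) hc
  rcases lt_or_ge c 513 with h | h
  · exact srch_of_chunk (lev := 0) (base := 512) chunk_512 (by omega) (by norm_num; omega) hc
  rcases lt_or_ge c 514 with h | h
  · exact srch_of_chunk (lev := 0) (base := 513) chunk_513 (by omega) (by norm_num; omega) hc
  rcases lt_or_ge c 515 with h | h
  · exact srch_of_chunk (lev := 0) (base := 514) chunk_514 (by omega) (by norm_num; omega) hc
  rcases lt_or_ge c 516 with h | h
  · exact srch_of_chunk (lev := 0) (base := 515) chunk_515 (by omega) (by norm_num; omega) hc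
  rcases lt_or_ge c 520 with h | h
  · exact srch_of_chunk (lev := 2) (base := 516) chunk_516 (by omega) (by norm_num; omega) hc
  rcases lt_or_ge c 522 with h | h
  · exact srch_of_chunk (lev := 1) (base := 520) chunk_520 (by omega) (by norm_num; omega) hc
  rcases lt_or_ge c 524 with h | h
  · exact srch_of_chunk (lev := 1) (base := 522) chunk_522 (by omega) (by norm_num; omega) hc
  rcases lt_or_ge c 526 with h | h
  · exact srch_of_chunk (lev := 1) (base := 524) chunk_524 (by omega) (by norm_num; omega) hc
  rcases lt_or_ge c 528 with h | h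
  · exact srch_of_chunk (lev := 1) (base := 526) chunk_526 (by omega) (by norm_num; omega) hc
  rcases lt_or_ge c 532 with h | h
  · exact srch_of_chunk (lev := 2) (base := 528) chunk_528 (by omega) (by norm_num; omega) hc
  rcases lt_or_ge c 534 with h | h
  · exact srch_of_chunk (lev := 1) (base := 532) chunk_532 (by omega) (by norm_num; omega) hc
  rcases lt_or_ge c 536 with h | h
  · exact srch_of_chunk (lev := 1) (base := 534) chunk_534 (by omega) (by norm_num; omega) hc
  rcases lt_or_ge c 540 with h | h
  · exact srch_of_chunk (lev := 2) (base := 536) chunk_536 (by omega) (by norm_num; omega) hc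
  rcases lt_or_ge c 544 with h | h
  · exact srch_of_chunk (lev := 2) (base := 540) chunk_540 (by omega) (by norm_num; omega) hc
  rcases lt_or_ge c 546 with h | h
  · exact srch_of_chunk (lev := 1) (base := 544) chunk_544 (by omega) (by norm_num; omega) hc
  rcases lt_or_ge c 548 with h | h
  · exact srch_of_chunk (lev := 1) (base := 546) chunk_546 (by omega) (by norm_num; omega) hc
  rcases lt_or_ge c 552 with h | h
  · exact srch_of_chunk (lev := 2) (base := 548) chunk_548 (by omega) (by norm_num; omega) hc
  rcases lt_or_ge c 556 with h | h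
  · exact srch_of_chunk (lev := 2) (base := 552) chunk_552 (by omega) (by norm_num; omega) hc
  rcases lt_or_ge c 560 with h | h
  · exact srch_of_chunk (lev := 2) (base := 556) chunk_556 (by omega) (by norm_num; omega) hc
  rcases lt_or_ge c 564 with h | h
  · exact srch_of_chunk (lev := 2) (base := 560) chunk_560 (by omega) (by norm_num; omega) hc
  rcases lt_or_ge c 568 with h | h
  · exact srch_of_chunk (lev := 2) (base := 564) chunk_564 (by omega) (by norm_num; omega) hc
  rcases lt_or_ge c 576 with h | h
  · exact srch_of_chunk (lev := 3) (base := 568) chunk_568 (by omega) (by norm_num; omega) hc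
  rcases lt_or_ge c 592 with h | h
  · exact srch_of_chunk (lev := 4) (base := 576) chunk_576 (by omega) (by norm_num; omega) hc
  rcases lt_or_ge c 608 with h | h
  · exact srch_of_chunk (lev := 4) (base := 592) chunk_592 (by omega) (by norm_num; omega) hc
  rcases lt_or_ge c 640 with h | h
  · exact srch_of_chunk (lev := 5) (base := 608) chunk_608 (by omega) (by norm_num; omega) hc
  rcases lt_or_ge c 672 with h | h
  · exact srch_of_chunk (lev := 5) (base := 640) chunk_640 (by omega) (by norm_num; omega) hc
  rcases lt_or_ge c 704 with h | h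
  · exact srch_of_chunk (lev := 5) (base := 672) chunk_672 (by omega) (by norm_num; omega) hc
  rcases lt_or_ge c 768 with h | h
  · exact srch_of_chunk (lev := 6) (base := 704) chunk_704 (by omega) (by norm_num; omega) hc
  rcases lt_or_ge c 772 with h | h
  · exact srch_of_chunk (lev := 2) (base := 768) chunk_768 (by omega) (by norm_num; omega) hc
  rcases lt_or_ge c 776 with h | h
  · exact srch_of_chunk (lev := 2) (base := 772) chunk_772 (by omega) (by norm_num; omega) hc
  rcases lt_or_ge c 780 with h | h
  · exact srch_of_chunk (lev := 2) (base := 776) chunk_776 (by omega) (by norm_num; omega) hc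
  rcases lt_or_ge c 784 with h | h
  · exact srch_of_chunk (lev := 2) (base := 780) chunk_780 (by omega) (by norm_num; omega) hc
  rcases lt_or_ge c 792 with h | h
  · exact srch_of_chunk (lev := 3) (base := 784) chunk_784 (by omega) (by norm_num; omega) hc
  rcases lt_or_ge c 800 with h | h
  · exact srch_of_chunk (lev := 3) (base := 792) chunk_792 (by omega) (by norm_num; omega) hc
  rcases lt_or_ge c 816 with h | h
  · exact srch_of_chunk (lev := 4) (base := 800) chunk_800 (by omega) (by norm_num; omega) hc
  rcases lt_or_ge c 832 with h | h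
  · exact srch_of_chunk (lev := 4) (base := 816) chunk_816 (by omega) (by norm_num; omega) hc
  rcases lt_or_ge c 864 with h | h
  · exact srch_of_chunk (lev := 5) (base := 832) chunk_832 (by omega) (by norm_num; omega) hc
  rcases lt_or_ge c 896 with h | h
  · exact srch_of_chunk (lev := 5) (base := 864) chunk_864 (by omega) (by norm_num; omega) hc
  exact srch_of_chunk (lev := 7) (base := 896) chunk_896 (by omega) (by norm_num; omega) hc

end Pool.Agent.W611.PS
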