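import Pool.Agent.W611.PS.Norm
import Pool.Agent.W611.PS.Chk

set_option autoImplicit false

open Finset

namespace Pool.Agent.W611.PS

open Pool.Agent.Results.MP_17ab9e_co.NonNormalPSMinus

lemma oM_em : (allLt 1024 fun n =>
    oM.testBit n == (!(Nat.beq n 0) && !(allLt 16 fun i => !(emG i).testBit n))) = true := by
  decide +kernel

lemma nM_compl : (allLt 1024 fun n => nM.testBit n == !oM.testBit n) = true := by
  decide +kernel

lemma oM_zero : oM.testBit 0 = false := by
  decide +kernel

lemma psFunG_dec {n : ℕ} (hn : n < 1024) : psFunG (dec n) = 1 ↔ oM.testBit n = true := by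
  have h1 := allLt_spec _ _ oM_em n hn
  rw [psFun_specG]
  by_cases h0 : n = 0
  · subst h0
    constructor
    · rintro ⟨i, _, hne⟩
      exact absurd dec_zero hne
    · intro h
      rw [oM_zero] at h
      exact absurd h (by decide)
  · have hb : Nat.beq n 0 = false := by
      cases hh : Nat.beq n 0
      · rfl
      · exact absurd (Nat.eq_of_beq_eq_true hh) h0
    rw [hb, beq_iff_eq, Bool.not_false, Bool.true_and] at h1
    rw [h1]
    constructor
    · rintro ⟨i, hi, _⟩
      have hi' : (emG i).testBit n = true := (mem_maskSub hn).mp hi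
      cases hh : (allLt 16 fun i => !(emG i).testBit n)
      · rfl
      · have := allLt_spec _ _ hh i (fin16_lt i)
        rw [hi'] at this
        exact absurd this (by decide)
    · intro h
      by_contra hne
      push Not at hne
      have hall : ∀ i < 16, (emG i).testBit n = false := by
        intro i hi
        by_contra hc
        have hc' : (emG i).testBit n = true := by simpa using hc
        have hm : dec n ∈ subG ⟨i, hi⟩ := (mem_maskSub hn).mpr hc'
        have := hne ⟨i, hi⟩ hm
        apply h0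
        apply dec_inj hn (by norm_num)
        rw [this, dec_zero]
      have hconv : ∀ (k : ℕ) (p : ℕ → Bool), (∀ x < k, p x = true) → allLt k p = true := by
        intro k p
        induction k with
        | zero => intro _; rfl
        | succ k ih =>
          intro hp
          simp only [allLt, Bool.and_eq_true]
          exact ⟨hp k (Nat.lt_succ_self k), ih (fun x hx => hp x (Nat.lt_succ_of_lt hx))⟩
      rw [hconv 16 _ (fun i hi => by rw [hall i hi]; rfl)] at h
      exact absurd h (by decide)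

lemma dC_spec {c x : ℕ} (hc : c < 1024) (hx : x < 1024) (h1 : c ≤ x ^^^ c)
    (h2 : oM.testBit (x ^^^ c) = true) : (dC c).testBit x = true := by
  unfold dC
  rw [tr_spec hc hx]
  change ((oM >>> c) <<< c).testBit (x ^^^ c) = true
  rw [Nat.testBit_shiftLeft, Nat.testBit_shiftRight]
  rw [show c + ((x ^^^ c) - c) = (x ^^^ c) by omega, h2]
  simp [h1]

theorem core (V : Submodule (ZMod 2) (Vec (2 * 5))) (hV : Module.finrank (ZMod 2) V = 5)
    (c1 a v0 : Vec (2 * 5)) (hv0 : v0 ∈ V) (hav0 : dot a v0 = 1)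
    (hf : ∀ v ∈ V, psFunG (c1 + v) = 1 + dot a v) : False := by
  classical
  obtain ⟨n1, hn1, hc1⟩ := dec_surj c1
  obtain ⟨n0, hn0, hd0⟩ := dec_surj v0
  have hcntV : cnt V = 2 ^ 5 := cnt_eq_of_finrank V hV
  set P := (Finset.range 1024).filter
    (fun n => Results.MP_17ab9e_co.NonNormalPSMinus.dec n ∈ V) with hP
  have hPc : P.card = 32 := by
    rw [cnt_eq_card] at hcntV
    have h32 : ((P.card : ℕ) : ℤ) = 32 := hcntV.trans (by norm_num)
    exact_mod_cast h32
  set M := P.filter
    (fun n => dot a (Results.MP_17ab9e_co.NonNormalPSMinus.dec n) = 0) with hMdef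
  have hPlt : ∀ x ∈ P, x < 1024 := by
    intro x hx
    rw [hP, Finset.mem_filter] at hx
    exact Finset.mem_range.mp hx.1
  have hPV : ∀ x ∈ P, Results.MP_17ab9e_co.NonNormalPSMinus.dec x ∈ V := by
    intro x hx
    rw [hP, Finset.mem_filter] at hx
    exact hx.2
  have hPx : ∀ x ∈ P, ∀ y ∈ P, x ^^^ y ∈ P := by
    intro x hx y hy
    rw [hP, Finset.mem_filter, Finset.mem_range]
    refine ⟨xor_lt (hPlt x hx) (hPlt y hy), ?_⟩
    rw [dec_xor]
    exact Submodule.add_mem _ (hPV x hx) (hPV y hy)
  have hMP : M ⊆ P := Finset.filter_subset _ _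
  have hn0P : n0 ∈ P := by
    rw [hP, Finset.mem_filter, Finset.mem_range]
    exact ⟨hn0, by rw [hd0]; exact hv0⟩
  have hdotx : ∀ x y : ℕ, dot a (Results.MP_17ab9e_co.NonNormalPSMinus.dec (x ^^^ y))
      = dot a (Results.MP_17ab9e_co.NonNormalPSMinus.dec x)
        + dot a (Results.MP_17ab9e_co.NonNormalPSMinus.dec y) := by
    intro x y
    rw [dec_xor, dot_add_right]
  have hM : Closed M := by
    constructor
    · rw [hMdef, Finset.mem_filter, hP, Finset.mem_filter, Finset.mem_range, dec_zero]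
      exact ⟨⟨by norm_num, Submodule.zero_mem _⟩, dot_zero_right a⟩
    · intro x hx y hy
      rw [hMdef, Finset.mem_filter] at hx hy ⊢
      exact ⟨hPx x hx.1 y hy.1, by rw [hdotx, hx.2, hy.2, add_zero]⟩
  have hMlt : ∀ x ∈ M, x < 1024 := fun x hx => hPlt x (hMP hx)
  have hMc : 16 ≤ M.card := by
    have hsplit : M.card + (P.filter (fun n =>
        ¬ dot a (Results.MP_17ab9e_co.NonNormalPSMinus.dec n) = 0)).card = P.card :=
      Finset.card_filter_add_card_filter_not (s := P)
        (fun n => dot a (Results.MP_17ab9e_co.NonNormalPSMinus.dec n) = 0)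
    have hle : (P.filter (fun n =>
        ¬ dot a (Results.MP_17ab9e_co.NonNormalPSMinus.dec n) = 0)).card ≤ M.card := by
      apply Finset.card_le_card_of_injOn (fun x => x ^^^ n0)
      · intro x hx
        rw [Finset.mem_coe, Finset.mem_filter] at hx
        rw [Finset.mem_coe, hMdef, Finset.mem_filter]
        refine ⟨hPx x hx.1 n0 hn0P, ?_⟩
        rw [hdotx]
        have h1 : dot a (Results.MP_17ab9e_co.NonNormalPSMinus.dec x) = 1 := by
          rcases zmod2_cases (dot a (Results.MP_17ab9e_co.NonNormalPSMinus.dec x)) with h | h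
          · exact absurd h hx.2
          · exact h
        rw [h1, hd0, hav0]; decide
      · intro x _ y _ hxy
        simp only at hxy
        have : (x ^^^ n0) ^^^ n0 = (y ^^^ n0) ^^^ n0 := by rw [hxy]
        rwa [Nat.xor_assoc, Nat.xor_assoc, Nat.xor_self, Nat.xor_zero, Nat.xor_zero] at this
    omega
  -- the smallest point of the flat on which the function is one
  set C : Finset ℕ := M.image (fun h => n1 ^^^ h) with hC
  have hCne : C.Nonempty := ⟨n1 ^^^ 0, by rw [hC]; exact Finset.mem_image_of_mem _ hM.1⟩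
  have hm0C := C.min'_mem hCne
  set m0 := C.min' hCne with hm0
  obtain ⟨h0, hh0, hm0eq⟩ := Finset.mem_image.mp (by rw [← hC]; exact hm0C)
  have hm0lt : m0 < 1024 := by
    rw [← hm0eq]
    exact xor_lt hn1 (hMlt h0 hh0)
  have hge : ∀ x ∈ M, m0 ≤ x ^^^ m0 := by
    intro x hx
    apply C.min'_le
    rw [hC, Finset.mem_image]
    refine ⟨h0 ^^^ x, hM.2 h0 hh0 x hx, ?_⟩
    rw [← hm0eq, Nat.xor_comm x (n1 ^^^ h0), Nat.xor_assoc]
  have hdm0 : Results.MP_17ab9e_co.NonNormalPSMinus.dec m0
      = c1 + Results.MP_17ab9e_co.NonNormalPSMinus.dec h0 := by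
    rw [← hm0eq, dec_xor, hc1]
  have hone : ∀ x ∈ M, oM.testBit (x ^^^ m0) = true := by
    intro x hx
    rw [← psFunG_dec (xor_lt (hMlt x hx) hm0lt), dec_xor, hdm0]
    have hmem : Results.MP_17ab9e_co.NonNormalPSMinus.dec (x ^^^ h0) ∈ V :=
      hPV _ (hMP (hM.2 x hx h0 hh0))
    have e : Results.MP_17ab9e_co.NonNormalPSMinus.dec x
        + (c1 + Results.MP_17ab9e_co.NonNormalPSMinus.dec h0)
        = c1 + Results.MP_17ab9e_co.NonNormalPSMinus.dec (x ^^^ h0) := by
      rw [dec_xor]; abel
    rw [e, hf _ hmem]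
    have hx' := hM.2 x hx h0 hh0
    rw [hMdef, Finset.mem_filter] at hx'
    rw [hx'.2, add_zero]
  have hm0o : oM.testBit m0 = true := by
    have := hone 0 hM.1
    rwa [Nat.zero_xor] at this
  have hs := srch_true hm0lt hm0o
  unfold srch at hs
  have hZ : ∀ x ∈ M, (dC m0).testBit x = true := fun x hx =>
    dC_spec hm0lt (hMlt x hx) (hge x hx) (hone x hx)
  obtain ⟨T, hTM, hTc, hT, hno⟩ := no_translateG hs hM hMlt hMc hZ
  have hn0T : n0 ∉ T := by
    intro h
    have := hTM h
    rw [hMdef, Finset.mem_filter, hd0, hav0] at this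
    exact absurd this.2 (by decide)
  apply (hno n0 hn0 hn0T).1
  intro s hs'
  have hsM := hTM hs'
  have hlt1 : n0 ^^^ s < 1024 := xor_lt hn0 (hMlt s hsM)
  have hlt2 : n0 ^^^ s ^^^ m0 < 1024 := xor_lt hlt1 hm0lt
  rw [tr_spec hm0lt hlt1]
  have hnM : nM.testBit (n0 ^^^ s ^^^ m0) = !oM.testBit (n0 ^^^ s ^^^ m0) := by
    simpa using allLt_spec _ _ nM_compl _ hlt2
  rw [hnM]
  cases hh : oM.testBit (n0 ^^^ s ^^^ m0)
  · rfl
  · exfalso
    rw [← psFunG_dec hlt2] at hh
    have e : Results.MP_17ab9e_co.NonNormalPSMinus.dec (n0 ^^^ s ^^^ m0)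
        = c1 + Results.MP_17ab9e_co.NonNormalPSMinus.dec (n0 ^^^ (s ^^^ h0)) := by
      rw [dec_xor, dec_xor, dec_xor, dec_xor, hdm0]; abel
    have hshM := hM.2 s hsM h0 hh0
    have hmem : Results.MP_17ab9e_co.NonNormalPSMinus.dec (n0 ^^^ (s ^^^ h0)) ∈ V :=
      hPV _ (hPx n0 hn0P _ (hMP hshM))
    rw [e, hf _ hmem, hdotx, hd0, hav0] at hh
    rw [hMdef, Finset.mem_filter] at hshM
    rw [hshM.2] at hh
    exact absurd hh (by decide)

theorem not_weaklyG (V : Submodule (ZMod 2) (Vec (2 * 5))) (c a : Vec (2 * 5)) (b : ZMod 2)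
    (hV : Module.finrank (ZMod 2) V = 5) (h : ∀ v ∈ V, psFunG (c + v) = dot a (c + v) + b) :
    False := by
  by_cases hcon : ∀ v ∈ V, dot a v = 0
  · apply not_normalG
    exact ⟨V, c, dot a c + b, hV, fun v hv => by rw [h v hv, dot_add_right, hcon v hv, add_zero]⟩
  · push Not at hcon
    obtain ⟨v0, hv0, hne⟩ := hcon
    have hav0 : dot a v0 = 1 := by
      rcases zmod2_cases (dot a v0) with h' | h'
      · exact absurd h' hne
      · exact h'
    rcases zmod2_cases (dot a c + b) with hb | hb
    · apply core V hV (c + v0) a v0 hv0 hav0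
      intro v hv
      rw [add_assoc, h (v0 + v) (V.add_mem hv0 hv), dot_add_right, dot_add_right, hav0]
      calc dot a c + (1 + dot a v) + b = (dot a c + b) + (1 + dot a v) := by ring
        _ = 1 + dot a v := by rw [hb, zero_add]
    · apply core V hV c a v0 hv0 hav0
      intro v hv
      rw [h v hv, dot_add_right]
      calc dot a c + dot a v + b = (dot a c + b) + dot a v := by ring
        _ = 1 + dot a v := by rw [hb]

end Pool.Agent.W611.PS
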