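import Pool.Agent.W611.PS.Data

set_option autoImplicit false

namespace Pool.Agent.W611.PS

open Pool.Agent.Results.MP_17ab9e_co.NonNormalPSMinus

lemma chunk_64 : allB srch 3 64 (Nat.mod (Nat.shiftRight oM 64) (Nat.pow 2 8)) = true := by
  decide +kernel

lemma chunk_192 : allB srch 6 192 (Nat.mod (Nat.shiftRight oM 192) (Nat.pow 2 64)) = true := by
  decide +kernel

lemma chunk_256 : allB srch 4 256 (Nat.mod (Nat.shiftRight oM 256) (Nat.pow 2 16)) = true := by
  decide +kernel

lemma chunk_320 : allB srch 6 320 (Nat.mod (Nat.shiftRight oM 320) (Nat.pow 2 64)) = true := by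
  decide +kernel

lemma chunk_546 : allB srch 1 546 (Nat.mod (Nat.shiftRight oM 546) (Nat.pow 2 2)) = true := by
  decide +kernel

lemma chunk_556 : allB srch 2 556 (Nat.mod (Nat.shiftRight oM 556) (Nat.pow 2 4)) = true := by
  decide +kernel

lemma chunk_792 : allB srch 3 792 (Nat.mod (Nat.shiftRight oM 792) (Nat.pow 2 8)) = true := by
  decide +kernel

end Pool.Agent.W611.PS
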