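import Pool.Agent.W611.PS.Data

set_option autoImplicit false

open Finset

namespace Pool.Agent.W611.PS

open Pool.Agent.Results.MP_17ab9e_co.NonNormalPSMinus

/-- what the search proves -/
lemma leaf_of_srch {U Z a b c d : ℕ}
    (s : allB (lev1 U Z) 7 0 (Nat.mod Z (Nat.pow 2 128)) = true) (ha0 : a ≠ 0) (ha : a < 128) (hb : b < 256) (hc : c < 512)
    (hd : d < 1024) (hab : a < b) (hbc : b < c) (hcd : c < d)
    (hba : b < b ^^^ a) (hca : c < c ^^^ a) (hcb : c < c ^^^ b)
    (hda : d < d ^^^ a) (hdb : d < d ^^^ b) (hdc : d < d ^^^ c)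
    (h1 : Z.testBit a = true) (h2 : (st Z a).testBit b = true)
    (h3 : (st (st Z a) b).testBit c = true)
    (h4 : (st (st (st Z a) b) c).testBit d = true) :
    leaf a b c (st (st U a) b) (st (st (st Z a) b) c) d = true := by
  have hb0 : b ≠ 0 := by omega
  have hc0 : c ≠ 0 := by omega
  have la := log2_lt ha0 (by omega : a < 1024)
  have lb := log2_lt hb0 (by omega : b < 1024)
  have lc := log2_lt hc0 (by omega : c < 1024)
  have s1 := allB_spec _ _ _ _ s a (by omega) (by
    change (Z % 2 ^ 128).testBit a = true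
    rw [Nat.testBit_mod_two_pow, h1]; simp [ha])
  rw [Nat.zero_add] at s1
  unfold lev1 at s1
  have hab0 : Nat.beq a 0 = false := by
    cases hh : Nat.beq a 0
    · rfl
    · exact absurd (Nat.eq_of_beq_eq_true hh) ha0
  rw [hab0] at s1
  have s1' : allB (lev2 a (st U a) (mkl (Nat.log2 a)) (st Z a)) 8 0
    (Nat.mod (up a (Nat.land (st Z a) (mkl (Nat.log2 a)))) (Nat.pow 2 256)) = true := s1
  have s2 := allB_spec _ _ _ _ s1' b (by omega) (by
    change ((up a (st Z a &&& mkl (Nat.log2 a))) % 2 ^ 256).testBit b = true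
    rw [Nat.testBit_mod_two_pow, up_spec _ _ _ (ge_of_lt ha0 hba hab)]
    · simp [hb]
    · rw [Nat.testBit_and, h2, mkl_spec la (by omega), testBit_log2_of_lt ha0 hba]
      rfl)
  rw [Nat.zero_add] at s2
  unfold lev2 at s2
  have s3 := allB_spec _ _ _ _ s2 c (by omega) (by
    change ((up b (st (st Z a) b &&& (mkl (Nat.log2 a) &&& mkl (Nat.log2 b)))) %
      2 ^ 512).testBit c = true
    rw [Nat.testBit_mod_two_pow, up_spec _ _ _ (ge_of_lt hb0 hcb hbc)]
    · simp [hc]
    · rw [Nat.testBit_and, Nat.testBit_and, h3, mkl_spec la (by omega), mkl_spec lb (by omega),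
        testBit_log2_of_lt ha0 hca, testBit_log2_of_lt hb0 hcb]
      rfl)
  rw [Nat.zero_add] at s3
  unfold lev3 at s3
  have s4 := allB_spec _ _ _ _ s3 d (by omega) (by
    change (up c (st (st (st Z a) b) c &&& ((mkl (Nat.log2 a) &&& mkl (Nat.log2 b))
      &&& mkl (Nat.log2 c)))).testBit d = true
    apply up_spec _ _ _ (ge_of_lt hc0 hdc hcd)
    rw [Nat.testBit_and, Nat.testBit_and, Nat.testBit_and, h4, mkl_spec la (by omega),
        mkl_spec lb (by omega), mkl_spec lc (by omega), testBit_log2_of_lt ha0 hda,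
        testBit_log2_of_lt hb0 hdb, testBit_log2_of_lt hc0 hdc]
    rfl)
  rw [Nat.zero_add] at s4
  exact s4

/-- The main combinatorial statement extracted from the search: every closed set `M` of at least
16 elements in the zero set contains a closed set `T` of at most 16 elements no further translate
of which lies in the zero set or in the union. -/
lemma no_translateG {U Z : ℕ}
    (hs : allB (lev1 U Z) 7 0 (Nat.mod Z (Nat.pow 2 128)) = true) {M : Finset ℕ} (hM : Closed M) (hlt : ∀ x ∈ M, x < 1024) (hc : 16 ≤ M.card)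
    (hZ : ∀ x ∈ M, Z.testBit x = true) :
    ∃ T : Finset ℕ, T ⊆ M ∧ T.card ≤ 16 ∧ Closed T ∧ ∀ u < 1024, u ∉ T →
      ¬ (∀ s ∈ T, U.testBit (u ^^^ s) = true) ∧
      ¬ (∀ s ∈ T, Z.testBit (u ^^^ s) = true) := by
  set T0 : Finset ℕ := {0} with hT0
  have c0 : Closed T0 := by
    refine ⟨by simp [hT0], ?_⟩
    intro x hx y hy
    simp only [hT0, Finset.mem_singleton] at hx hy ⊢
    rw [hx, hy]; rfl
  have s0 : T0 ⊆ M := by
    intro x hx
    simp only [hT0, Finset.mem_singleton] at hx
    rw [hx]; exact hM.1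
  have k0 : T0.card = 1 := by simp [hT0]
  have L1 := card_low hM hlt hc 7 3 (by norm_num) (by norm_num)
  have L2 := card_low hM hlt hc 8 2 (by norm_num) (by norm_num)
  have L3 := card_low hM hlt hc 9 1 (by norm_num) (by norm_num)
  have L4 := card_low hM hlt hc 10 0 (by norm_num) (by norm_num)
  norm_num at L1 L2 L3 L4
  obtain ⟨a, haM, haT, ha, hamin⟩ := pick (M := M) (T := T0) (B := 128) (by rw [k0]; omega)
  set T1 := ext T0 a with hT1
  have c1 : Closed T1 := closed_ext c0 a
  have s1 : T1 ⊆ M := ext_subset hM s0 haM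
  have k1 : T1.card ≤ 2 := by have := card_ext_le T0 a; rw [← hT1] at this; omega
  have ma : a ∈ T1 := self_mem_ext c0 a
  obtain ⟨b, hbM, hbT, hb, hbmin⟩ := pick (M := M) (T := T1) (B := 256) (by omega)
  set T2 := ext T1 b with hT2
  have c2 : Closed T2 := closed_ext c1 b
  have s2 : T2 ⊆ M := ext_subset hM s1 hbM
  have k2 : T2.card ≤ 4 := by have := card_ext_le T1 b; rw [← hT2] at this; omega
  have mb : b ∈ T2 := self_mem_ext c1 b
  have ma2 : a ∈ T2 := subset_ext _ _ ma
  obtain ⟨c, hcM, hcT, hcc, hcmin⟩ := pick (M := M) (T := T2) (B := 512) (by omega)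
  set T3 := ext T2 c with hT3
  have c3 : Closed T3 := closed_ext c2 c
  have s3 : T3 ⊆ M := ext_subset hM s2 hcM
  have k3 : T3.card ≤ 8 := by have := card_ext_le T2 c; rw [← hT3] at this; omega
  have mc : c ∈ T3 := self_mem_ext c2 c
  have ma3 : a ∈ T3 := subset_ext _ _ ma2
  have mb3 : b ∈ T3 := subset_ext _ _ mb
  obtain ⟨d, hdM, hdT, hd, hdmin⟩ := pick (M := M) (T := T3) (B := 1024) (by omega)
  set T4 := ext T3 d with hT4
  have c4 : Closed T4 := closed_ext c3 d
  have s4 : T4 ⊆ M := ext_subset hM s3 hdM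
  have k4 : T4.card ≤ 16 := by have := card_ext_le T3 d; rw [← hT4] at this; omega
  have md : d ∈ T4 := self_mem_ext c3 d
  have mc4 : c ∈ T4 := subset_ext _ _ mc
  have mb4 : b ∈ T4 := subset_ext _ _ mb3
  have ma4 : a ∈ T4 := subset_ext _ _ ma3
  have ha0 : a ≠ 0 := fun h => haT (by rw [h]; exact c0.1)
  have hb0 : b ≠ 0 := fun h => hbT (by rw [h]; exact c1.1)
  have hc0 : c ≠ 0 := fun h => hcT (by rw [h]; exact c2.1)
  have hab : a < b := by
    refine lt_of_le_of_ne (hamin b hbM (fun h => hbT (subset_ext _ _ h))) ?_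
    intro h; exact hbT (by rw [← h]; exact ma)
  have hbc : b < c := by
    refine lt_of_le_of_ne (hbmin c hcM (fun h => hcT (subset_ext _ _ h))) ?_
    intro h; exact hcT (by rw [← h]; exact mb)
  have hcd : c < d := by
    refine lt_of_le_of_ne (hcmin d hdM (fun h => hdT (subset_ext _ _ h))) ?_
    intro h; exact hdT (by rw [← h]; exact mc)
  have hba := lt_xor hM c1 s1 hbM hbT hbmin ma ha0
  have hca := lt_xor hM c2 s2 hcM hcT hcmin ma2 ha0
  have hcb := lt_xor hM c2 s2 hcM hcT hcmin mb hb0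
  have hda := lt_xor hM c3 s3 hdM hdT hdmin ma3 ha0
  have hdb := lt_xor hM c3 s3 hdM hdT hdmin mb3 hb0
  have hdc := lt_xor hM c3 s3 hdM hdT hdmin mc hc0
  have z1 := st_all hlt (hlt a haM) (fun x hx => hM.2 x hx a haM) hZ
  have z2 := st_all hlt (hlt b hbM) (fun x hx => hM.2 x hx b hbM) z1
  have z3 := st_all hlt (hlt c hcM) (fun x hx => hM.2 x hx c hcM) z2
  have hleaf := leaf_of_srch hs ha0 ha hb hcc (hlt d hdM) hab hbc hcd hba hca hcb hda hdb hdc
    (hZ a haM) (z1 b hbM) (z2 c hcM) (z3 d hdM)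
  unfold leaf at hleaf
  have e1 : Nat.beq (st (st (st (st Z a) b) c) d) (maskOf (span4 a b c d)) = true := by
    cases hh : Nat.beq (st (st (st (st Z a) b) c) d) (maskOf (span4 a b c d))
    · rw [hh] at hleaf
      exact Bool.noConfusion (show false = true from hleaf)
    · rfl
  rw [e1] at hleaf
  have e2 : Nat.beq (st (st (st (st U a) b) c) d) 0 = true := hleaf
  have e1' := Nat.eq_of_beq_eq_true e1
  have e2' := Nat.eq_of_beq_eq_true e2
  refine ⟨T4, s4, k4, c4, ?_⟩
  intro u hu huT
  -- the coset of `u`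
  set C : Finset ℕ := T4.image (fun s => u ^^^ s) with hC
  have hClt : ∀ x ∈ C, x < 1024 := by
    intro x hx
    rw [hC, Finset.mem_image] at hx
    obtain ⟨s, hs, rfl⟩ := hx
    exact xor_lt hu (hlt s (s4 hs))
  have hCw : ∀ w ∈ T4, ∀ x ∈ C, x ^^^ w ∈ C := by
    intro w hw x hx
    rw [hC, Finset.mem_image] at hx ⊢
    obtain ⟨s, hs, rfl⟩ := hx
    exact ⟨s ^^^ w, c4.2 s hs w hw, by rw [Nat.xor_assoc]⟩
  have huC : u ∈ C := by
    rw [hC, Finset.mem_image]
    exact ⟨0, c4.1, by rw [Nat.xor_zero]⟩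
  have chain : ∀ S : ℕ, (∀ s ∈ T4, S.testBit (u ^^^ s) = true) →
      (st (st (st (st S a) b) c) d).testBit u = true := by
    intro S hS
    have hS' : ∀ x ∈ C, S.testBit x = true := by
      intro x hx
      rw [hC, Finset.mem_image] at hx
      obtain ⟨s, hs, rfl⟩ := hx
      exact hS s hs
    have y1 := st_all hClt (hlt a haM) (hCw a ma4) hS'
    have y2 := st_all hClt (hlt b hbM) (hCw b mb4) y1
    have y3 := st_all hClt (hlt c hcM) (hCw c mc4) y2
    have y4 := st_all hClt (hlt d hdM) (hCw d md) y3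
    exact y4 u huC
  constructor
  · intro h
    have := chain U h
    rw [e2'] at this
    simp at this
  · intro h
    have := chain Z h
    rw [e1'] at this
    have hmem := maskOf_spec _ _ this
    apply huT
    have x2 := c4.2
    have m0 := c4.1
    have ab := x2 a ma4 b mb4
    have ac := x2 a ma4 c mc4
    have bc := x2 b mb4 c mc4
    have abc := x2 _ ab c mc4
    have ad := x2 a ma4 d md
    have bd := x2 b mb4 d md
    have abd := x2 _ ab d md
    have cd := x2 c mc4 d md
    have acd := x2 _ ac d md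
    have bcd := x2 _ bc d md
    have abcd := x2 _ abc d md
    simp only [span4, List.mem_cons, List.not_mem_nil, or_false] at hmem
    rcases hmem with h | h | h | h | h | h | h | h | h | h | h | h | h | h | h | h <;>
      (rw [h]; assumption)


end Pool.Agent.W611.PS
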