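import Pool.Agent.W611.PS.Gen

set_option autoImplicit false

open Finset

namespace Pool.Agent.W611.PS

open Pool.Agent.Results.MP_17ab9e_co.NonNormalPSMinus

lemma search_trueG : allB (lev1 uM zM) 7 0 (Nat.mod zM (Nat.pow 2 128)) = true := by
  decide +kernel

lemma zMask_complG : (allLt 1024 fun n => zM.testBit n == !uM.testBit n) = true := by
  decide +kernel

/-- the masks of the sixteen subspaces -/
def emG (i : ℕ) : ℕ := emL.getD i 0

/-- the masks of their orthogonal complements -/
def dmG (i : ℕ) : ℕ := dmL.getD i 0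

lemma em_goodG : (allLt 16 fun i => goodMask (emG i)) = true := by
  decide +kernel

lemma em_cardG : (allLt 16 fun i => Nat.beq (popc (emG i) 1024) 32) = true := by
  decide +kernel

lemma dm_cardG : (allLt 16 fun i => Nat.beq (popc (dmG i) 1024) 32) = true := by
  decide +kernel

lemma em_disjG : (allLt 16 fun i => allLt 16 fun j =>
    Nat.beq i j || Nat.beq (Nat.land (emG i) (emG j)) 1) = true := by
  decide +kernel

lemma em_dmG : (allLt 16 fun i => allB (fun a => allB (fun b => !par (a &&& b)) 10 0 (emG i)) 10 0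
    (dmG i)) = true := by
  decide +kernel

lemma uM_dmG : (allLt 1024 fun n =>
    uM.testBit n == (!(Nat.beq n 0) && !(allLt 16 fun i => !(dmG i).testBit n))) = true := by
  decide +kernel

/-- the sixteen subspaces -/
def subG (i : Fin (2 ^ (5 - 1))) : Submodule (ZMod 2) (Vec (2 * 5)) :=
  maskSub (emG i) (allLt_spec _ _ em_goodG i (fin16_lt i))

lemma cnt_subG (i : Fin (2 ^ (5 - 1))) : cnt (subG i) = 32 := by
  classical
  rw [cnt_eq_card]
  have h1 : (Finset.range 1024).filter (fun n => Results.MP_17ab9e_co.NonNormalPSMinus.dec n ∈ subG i)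
      = (Finset.range 1024).filter (fun n => (emG i).testBit n = true) := by
    apply Finset.filter_congr
    intro n hn
    exact mem_maskSub (Finset.mem_range.mp hn)
  rw [h1, popc_spec, Nat.eq_of_beq_eq_true (allLt_spec _ _ em_cardG i (fin16_lt i))]
  norm_num

lemma finrank_subG (i : Fin (2 ^ (5 - 1))) : Module.finrank (ZMod 2) (subG i) = 5 := by
  have h1 := cnt_subG i
  rw [cnt_eq_of_finrank (subG i) rfl] at h1
  have h2 : 2 ^ Module.finrank (ZMod 2) (subG i) = 2 ^ 5 := by
    have : (2 : ℤ) ^ Module.finrank (ZMod 2) (subG i) = 2 ^ 5 := by rw [h1]; norm_num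
    exact_mod_cast this
  exact Nat.pow_right_injective (le_refl 2) h2

lemma sub_disjG (i j : Fin (2 ^ (5 - 1))) (hij : i ≠ j) : subG i ⊓ subG j = ⊥ := by
  rw [Submodule.eq_bot_iff]
  rintro x ⟨hi, hj⟩
  obtain ⟨n, hn, rfl⟩ := dec_surj x
  have h1 : (emG i).testBit n = true := (mem_maskSub hn).mp hi
  have h2 : (emG j).testBit n = true := (mem_maskSub hn).mp hj
  have h3 := allLt_spec _ _ (allLt_spec _ _ em_disjG i (fin16_lt i)) j (fin16_lt j)
  rw [Bool.or_eq_true] at h3
  rcases h3 with h3 | h3
  · exact absurd (Fin.ext (Nat.eq_of_beq_eq_true h3)) hij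
  · have h4 : emG i &&& emG j = 1 := Nat.eq_of_beq_eq_true h3
    have h5 : (emG i &&& emG j).testBit n = true := by rw [Nat.testBit_and, h1, h2]; rfl
    rw [h4, Nat.testBit_one_eq_true_iff_self_eq_zero] at h5
    rw [h5, dec_zero]

open Classical in
lemma mem_perp_subG (i : Fin (2 ^ (5 - 1))) {n : ℕ} (hn : n < 1024) :
    Results.MP_17ab9e_co.NonNormalPSMinus.dec n ∈ perp (subG i) ↔ (dmG i).testBit n = true := by
  have hsub : (Finset.range 1024).filter (fun n => (dmG i).testBit n = true)
      ⊆ (Finset.range 1024).filter (fun n => Results.MP_17ab9e_co.NonNormalPSMinus.dec n ∈ perp (subG i)) := by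
    intro m hm
    rw [Finset.mem_filter] at hm ⊢
    refine ⟨hm.1, ?_⟩
    rintro v ⟨a, ha, ma, rfl⟩
    have h1 := allB_spec _ _ _ _ (allLt_spec _ _ em_dmG i (fin16_lt i)) m
      (Finset.mem_range.mp hm.1) hm.2
    rw [Nat.zero_add] at h1
    have h2 := allB_spec _ _ _ _ h1 a ha ma
    rw [Nat.zero_add] at h2
    rw [dot_dec]
    have h3 : par (m &&& a) = false := by simpa using h2
    rw [h3]; rfl
  have hcard : ((Finset.range 1024).filter (fun n => Results.MP_17ab9e_co.NonNormalPSMinus.dec n ∈ perp (subG i))).card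
      ≤ ((Finset.range 1024).filter (fun n => (dmG i).testBit n = true)).card := by
    rw [popc_spec, Nat.eq_of_beq_eq_true (allLt_spec _ _ dm_cardG i (fin16_lt i))]
    have h1 := cnt_mul_cnt (subG i)
    rw [cnt_subG, cnt_eq_card (perp (subG i))] at h1
    have h2 : (32 : ℤ) * (((Finset.range 1024).filter (fun n => Results.MP_17ab9e_co.NonNormalPSMinus.dec n ∈ perp (subG i))).card : ℤ)
        = 1024 := by rw [h1]; norm_num
    omega
  have heq := Finset.eq_of_subset_of_card_le hsub hcard
  have := Finset.ext_iff.mp heq n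
  simp only [mem_filter, mem_range, hn, true_and] at this
  exact this.symm

lemma mem_unionG {n : ℕ} (hn : n < 1024) (h0 : n ≠ 0) :
    (∃ i, Results.MP_17ab9e_co.NonNormalPSMinus.dec n ∈ perp (subG i)) ↔ uM.testBit n = true := by
  have h1 := allLt_spec _ _ uM_dmG n hn
  have hb : Nat.beq n 0 = false := by
    cases hh : Nat.beq n 0
    · rfl
    · exact absurd (Nat.eq_of_beq_eq_true hh) h0
  rw [hb, beq_iff_eq, Bool.not_false, Bool.true_and] at h1
  rw [h1]
  constructor
  · rintro ⟨i, hi⟩
    rw [mem_perp_subG i hn] at hi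
    cases hh : (allLt 16 fun i => !(dmG i).testBit n)
    · rfl
    · have := allLt_spec _ _ hh i (fin16_lt i)
      rw [hi] at this
      exact absurd this (by decide)
  · intro h
    by_contra hne
    push Not at hne
    have hall : ∀ i < 16, (dmG i).testBit n = false := by
      intro i hi
      have := hne ⟨i, hi⟩
      rw [mem_perp_subG ⟨i, hi⟩ hn] at this
      simpa using this
    have hconv : ∀ (k : ℕ) (p : ℕ → Bool), (∀ x < k, p x = true) → allLt k p = true := by
      intro k p
      induction k with
      | zero => intro _; rfl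
      | succ k ih =>
        intro hp
        simp only [allLt, Bool.and_eq_true]
        exact ⟨hp k (Nat.lt_succ_self k), ih (fun x hx => hp x (Nat.lt_succ_of_lt hx))⟩
    rw [hconv 16 _ (fun i hi => by rw [hall i hi]; rfl)] at h
    exact absurd h (by decide)

open Classical in
/-- The function of the partial spread. -/
noncomputable def psFunG : Vec (2 * 5) → ZMod 2 :=
  fun x => if ∃ i, x ∈ subG i ∧ x ≠ 0 then 1 else 0

lemma psFun_specG (x : Vec (2 * 5)) : psFunG x = 1 ↔ ∃ i, x ∈ subG i ∧ x ≠ 0 := by
  unfold psFunG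
  split_ifs with h
  · exact ⟨fun _ => h, fun _ => rfl⟩
  · exact ⟨fun h1 => absurd h1 (by decide), fun h2 => absurd h2 h⟩

/-- There is a bent function in `10` variables of the class `PS^-` which is constant on no
`5`-dimensional flat of `F_2^10`. -/
theorem not_normalG : ¬ IsNormal psFunG := by
  classical
  rintro ⟨V, c, b, hV, hc⟩
  have hdual := dual_linear (by norm_num) psFunG subG finrank_subG sub_disjG psFun_specG V hV c b hc
  have hcntV : cnt V = 2 ^ 5 := cnt_eq_of_finrank V hV
  have hcntP : cnt (perp V) = 32 := by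
    have := cnt_mul_cnt V
    rw [hcntV] at this
    norm_num at this
    omega
  set P := (Finset.range 1024).filter (fun n => Results.MP_17ab9e_co.NonNormalPSMinus.dec n ∈ perp V) with hP
  have hPc : P.card = 32 := by
    rw [cnt_eq_card] at hcntP
    exact_mod_cast hcntP
  set M := P.filter (fun n => dot c (Results.MP_17ab9e_co.NonNormalPSMinus.dec n) = 0) with hMdef
  have hPlt : ∀ x ∈ P, x < 1024 := by
    intro x hx
    rw [hP, Finset.mem_filter] at hx
    exact Finset.mem_range.mp hx.1
  have hPperp : ∀ x ∈ P, Results.MP_17ab9e_co.NonNormalPSMinus.dec x ∈ perp V := by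
    intro x hx
    rw [hP, Finset.mem_filter] at hx
    exact hx.2
  have hPx : ∀ x ∈ P, ∀ y ∈ P, x ^^^ y ∈ P := by
    intro x hx y hy
    rw [hP, Finset.mem_filter, Finset.mem_range]
    refine ⟨xor_lt (hPlt x hx) (hPlt y hy), ?_⟩
    rw [dec_xor]
    exact Submodule.add_mem _ (hPperp x hx) (hPperp y hy)
  have hMP : M ⊆ P := Finset.filter_subset _ _
  have hdotx : ∀ x y : ℕ, dot c (Results.MP_17ab9e_co.NonNormalPSMinus.dec (x ^^^ y)) = dot c (Results.MP_17ab9e_co.NonNormalPSMinus.dec x) + dot c (Results.MP_17ab9e_co.NonNormalPSMinus.dec y) := by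
    intro x y
    rw [dec_xor, dot_add_right]
  have hM : Closed M := by
    constructor
    · rw [hMdef, Finset.mem_filter, hP, Finset.mem_filter, Finset.mem_range, dec_zero]
      exact ⟨⟨by norm_num, Submodule.zero_mem _⟩, dot_zero_right c⟩
    · intro x hx y hy
      rw [hMdef, Finset.mem_filter] at hx hy ⊢
      exact ⟨hPx x hx.1 y hy.1, by rw [hdotx, hx.2, hy.2, add_zero]⟩
  have hMlt : ∀ x ∈ M, x < 1024 := fun x hx => hPlt x (hMP hx)
  have hMc : 16 ≤ M.card := by
    have hsplit : M.card + (P.filter (fun n => ¬ dot c (Results.MP_17ab9e_co.NonNormalPSMinus.dec n) = 0)).card = P.card :=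
      Finset.card_filter_add_card_filter_not (s := P) (fun n => dot c (Results.MP_17ab9e_co.NonNormalPSMinus.dec n) = 0)
    rcases Finset.eq_empty_or_nonempty (P.filter (fun n => ¬ dot c (Results.MP_17ab9e_co.NonNormalPSMinus.dec n) = 0)) with he | hne
    · rw [he, Finset.card_empty] at hsplit
      omega
    · obtain ⟨x0, hx0⟩ := hne
      rw [Finset.mem_filter] at hx0
      have hle : (P.filter (fun n => ¬ dot c (Results.MP_17ab9e_co.NonNormalPSMinus.dec n) = 0)).card ≤ M.card := by
        apply Finset.card_le_card_of_injOn (fun x => x ^^^ x0)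
        · intro x hx
          rw [Finset.mem_coe, Finset.mem_filter] at hx
          rw [Finset.mem_coe, hMdef, Finset.mem_filter]
          refine ⟨hPx x hx.1 x0 hx0.1, ?_⟩
          rw [hdotx]
          have h1 : dot c (Results.MP_17ab9e_co.NonNormalPSMinus.dec x) = 1 := by
            rcases zmod2_cases (dot c (Results.MP_17ab9e_co.NonNormalPSMinus.dec x)) with h | h
            · exact absurd h hx.2
            · exact h
          have h2 : dot c (Results.MP_17ab9e_co.NonNormalPSMinus.dec x0) = 1 := by
            rcases zmod2_cases (dot c (Results.MP_17ab9e_co.NonNormalPSMinus.dec x0)) with h | h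
            · exact absurd h hx0.2
            · exact h
          rw [h1, h2]; decide
        · intro x _ y _ hxy
          simp only at hxy
          have : (x ^^^ x0) ^^^ x0 = (y ^^^ x0) ^^^ x0 := by rw [hxy]
          rwa [Nat.xor_assoc, Nat.xor_assoc, Nat.xor_self, Nat.xor_zero, Nat.xor_zero] at this
      omega
  have hkey : ∀ n ∈ P, n ≠ 0 → (uM.testBit n = true ↔ dot c (Results.MP_17ab9e_co.NonNormalPSMinus.dec n) = 1) := by
    intro n hn h0
    rw [← mem_unionG (hPlt n hn) h0]
    apply hdual _ (hPperp n hn)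
    intro hz
    rw [← dec_zero] at hz
    exact h0 (dec_inj (hPlt n hn) (by norm_num) hz)
  have hz : ∀ n < 1024, zM.testBit n = !uM.testBit n := by
    intro n hn
    simpa using allLt_spec _ _ zMask_complG n hn
  have hMZ : ∀ x ∈ M, zM.testBit x = true := by
    intro x hx
    by_cases h0 : x = 0
    · rw [h0]; decide +kernel
    · have h1 := hkey x (hMP hx) h0
      rw [hMdef, Finset.mem_filter] at hx
      rw [hz x (hPlt x hx.1)]
      cases hh : uM.testBit x
      · rfl
      · have := h1.mp hh
        rw [hx.2] at this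
        exact absurd this (by decide)
  obtain ⟨T, hTM, hTc, hT, hno⟩ := no_translateG search_trueG hM hMlt hMc hMZ
  obtain ⟨u, huP, huT⟩ := Finset.exists_mem_notMem_of_card_lt_card
    (s := T) (t := P) (by omega)
  have hu := hno u (hPlt u huP) huT
  have hcos : ∀ s ∈ T, (uM.testBit (u ^^^ s) = true ↔ dot c (Results.MP_17ab9e_co.NonNormalPSMinus.dec u) = 1) := by
    intro s hs
    have hsM := hTM hs
    have hsP := hMP hsM
    have hne : u ^^^ s ≠ 0 := by
      intro h
      apply huT
      have : (u ^^^ s) ^^^ s = 0 ^^^ s := by rw [h]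
      rw [Nat.xor_assoc, Nat.xor_self, Nat.xor_zero, Nat.zero_xor] at this
      rw [this]; exact hs
    rw [hkey _ (hPx u huP s hsP) hne, hdotx]
    rw [hMdef, Finset.mem_filter] at hsM
    rw [hsM.2, add_zero]
  rcases zmod2_cases (dot c (Results.MP_17ab9e_co.NonNormalPSMinus.dec u)) with h | h
  · apply hu.2
    intro s hs
    rw [hz _ (xor_lt (hPlt u huP) (hMlt s (hTM hs)))]
    cases hh : uM.testBit (u ^^^ s)
    · rfl
    · have := (hcos s hs).mp hh
      rw [h] at this
      exact absurd this (by decide)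
  · apply hu.1
    intro s hs
    exact (hcos s hs).mpr h



end Pool.Agent.W611.PS
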